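import Mathlib
import Pool.Agent.Helper392.Mey.PL

/-!
# The isodiametric inequality in the plane (project PG of helper949, task ISO; helper216)

`Pool.Agent.N216.PG.t_ISO` is (word for word) a proof of `Pool.Agent.N949.PG.S_ISO`.  It follows from
the Brunn–Minkowski inequality for `K` and `-K`.
-/

set_option autoImplicit false

namespace Pool.Agent.N216.PG

open MeasureTheory

theorem vol_img (S : Set ℂ) : volume (Complex.measurableEquivPi '' S) = volume S := by
  have h := Complex.volume_preserving_equiv_pi.measure_preimage_equiv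
    (Complex.measurableEquivPi '' S)
  rw [Set.preimage_image_eq _ Complex.measurableEquivPi.injective] at h
  exact h.symm

/-- The isodiametric inequality in the plane. -/
theorem t_ISO : ∀ (K : Set ℂ) (D : ℝ), IsCompact K → (∀ z ∈ K, ∀ w ∈ K, ‖z - w‖ ≤ D) →
    MeasureTheory.volume K ≤ ENNReal.ofReal (Real.pi / 4 * D ^ 2) := by
  intro K D hK hD
  rcases K.eq_empty_or_nonempty with rfl | ⟨z₀, hz₀⟩
  · simp
  have hD0 : 0 ≤ D := by
    have := hD z₀ hz₀ z₀ hz₀
    rwa [sub_self, norm_zero] at this
  have hm : ∀ S : Set ℂ, MeasurableSet S → MeasurableSet (Complex.measurableEquivPi '' S) :=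
    fun S hS => (MeasurableEquiv.measurableSet_image _).2 hS
  have h1 := Pool.Agent.Helper392.Mey.PL.bm_pi (A := Complex.measurableEquivPi '' K)
    (B := Complex.measurableEquivPi '' (-K))
    (C := Complex.measurableEquivPi '' (Metric.closedBall 0 (D / 2)))
    (hm _ hK.measurableSet) (hm _ hK.measurableSet.neg) (hm _ Metric.isClosed_closedBall.measurableSet)
    (by
      rintro _ ⟨z, hz, rfl⟩ _ ⟨w, hw, rfl⟩
      refine ⟨(z + w) / 2, ?_, ?_⟩
      · rw [mem_closedBall_zero_iff, norm_div]
        have h2 := hD z hz (-w) hw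
        rw [sub_neg_eq_add] at h2
        rw [Complex.norm_ofNat]
        linarith
      · funext i
        fin_cases i <;> simp [Complex.measurableEquivPi_apply])
  rw [vol_img, vol_img, vol_img, Measure.measure_neg, ← pow_two] at h1
  have h2 : volume K ≤ volume (Metric.closedBall (0 : ℂ) (D / 2)) :=
    (ENNReal.pow_le_pow_left_iff two_ne_zero).1 h1
  refine h2.trans (le_of_eq ?_)
  rw [Complex.volume_closedBall, ← ENNReal.ofReal_pow (by positivity)]
  have h3 : (NNReal.pi : ENNReal) = ENNReal.ofReal Real.pi := by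
    rw [ENNReal.ofReal, ← NNReal.coe_real_pi, Real.toNNReal_coe]
  rw [h3, ← ENNReal.ofReal_mul (by positivity)]
  congr 1
  ring

end Pool.Agent.N216.PG
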